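import Pool.Agent.K7.H85.PS.Main

/-!
# MP_927f17_an: induced subspaces of finite codimension are `Σ`-subspaces

If the subspace `D` of `X*` induced by a projectional skeleton on a (real or complex) Banach space
`X` has finite codimension in `X*`, then `D` is a `Σ`-subspace of `X*`. So the answer to Q1 is yes.

Proof. For a directed set `A` of indices let `P_A` be the pointwise limit of the projections `P_s`,
`s ∈ A`. A functional in `D` fixed by `P_A` is fixed by `P_C` for a countable directed `C ⊆ A`.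
If `D` has finite codimension, then there is a directed set `A` of cardinality at most `ℵ₁` such
that `X* = D + P_A* X*` (consider a chain of length `ω₁`), and then a further enlargement of `A`
(a chain of length `ω`) gives `P_B* D ⊆ D` for all directed sets `B ⊇ A`. The `Σ`-structure is now
constructed by transfinite induction on the density of the range of a projection `R` with
`R* D ⊆ D`: the indices whose projections commute with `R` are cofinal and countably closed, and
the differences `(P_{A_{i+1}} - P_{A_i}) R` for a suitable chain of directed sets `A_i` are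
projections with smaller ranges which preserve `D`.
-/

set_option autoImplicit false

open Set Filter Topology

universe u v w

namespace Pool.Agent.Results.MP_927f17_an.FiniteCodimension

/-- A projectional skeleton on the Banach space `X`: a family of bounded linear projections `P s`
on `X`, indexed by an up-directed partially ordered set `Γ` in which every increasing sequence has
a supremum, such that every `P s X` is separable, `X = ⋃ s, P s X`, `P s = P s P t = P t P s` for
`s ≤ t`, and `P t X` is the closure of `⋃ n, P (s n) X` when `s 0 < s 1 < ⋯` has supremum `t`. -/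
structure ProjectionalSkeleton (𝕜 : Type w) [RCLike 𝕜] (X : Type u) [NormedAddCommGroup X]
    [NormedSpace 𝕜 X] (Γ : Type v) [PartialOrder Γ] where
  P : Γ → X →L[𝕜] X
  proj : ∀ s, P s ∘L P s = P s
  directed : ∀ s t : Γ, ∃ r, s ≤ r ∧ t ≤ r
  exists_sup : ∀ s : ℕ → Γ, StrictMono s → ∃ t, IsLUB (range s) t
  separable : ∀ s, TopologicalSpace.IsSeparable (range (P s))
  cover : ⋃ s, range (P s) = univ
  compat : ∀ s t, s ≤ t → P s = P s ∘L P t ∧ P s = P t ∘L P s
  cont : ∀ (s : ℕ → Γ) (t : Γ), StrictMono s → IsLUB (range s) t →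
    range (P t) = closure (⋃ n, range (P (s n)))

/-- The subspace `D = ⋃ s, P s* X*` of `X*` induced by a projectional skeleton. -/
def ProjectionalSkeleton.induced {𝕜 : Type w} [RCLike 𝕜] {X : Type u} [NormedAddCommGroup X]
    [NormedSpace 𝕜 X] {Γ : Type v} [PartialOrder Γ] (S : ProjectionalSkeleton 𝕜 X Γ) :
    Submodule 𝕜 (X →L[𝕜] 𝕜) where
  carrier := {ψ | ∃ (s : Γ) (φ : X →L[𝕜] 𝕜), ψ = φ ∘L S.P s}
  zero_mem' := by
    have h : (0 : X) ∈ ⋃ s, range (S.P s) := by rw [S.cover]; trivial
    obtain ⟨s, -⟩ := mem_iUnion.1 h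
    exact ⟨s, 0, by simp⟩
  add_mem' := by
    rintro _ _ ⟨s, φ, rfl⟩ ⟨t, ψ, rfl⟩
    obtain ⟨r, hs, ht⟩ := S.directed s t
    refine ⟨r, φ ∘L S.P s + ψ ∘L S.P t, ?_⟩
    ext x
    have h1 : S.P s (S.P r x) = S.P s x := (congrArg (fun T => T x) (S.compat s r hs).1).symm
    have h2 : S.P t (S.P r x) = S.P t x := (congrArg (fun T => T x) (S.compat t r ht).1).symm
    simp [h1, h2]
  smul_mem' := by
    rintro c _ ⟨s, φ, rfl⟩
    exact ⟨s, c • φ, by ext x; simp⟩

/-- A subspace `D` of `X*` is a `Σ`-subspace if there is a set `M ⊆ X` with dense linear span such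
that `D` consists of the functionals which are non-zero at only countably many points of `M`. -/
def IsSigmaSubspace {𝕜 : Type w} [RCLike 𝕜] {X : Type u} [NormedAddCommGroup X]
    [NormedSpace 𝕜 X] (D : Submodule 𝕜 (X →L[𝕜] 𝕜)) : Prop :=
  ∃ M : Set X, closure (Submodule.span 𝕜 M : Set X) = univ ∧
    ∀ ψ : X →L[𝕜] 𝕜, ψ ∈ D ↔ {x ∈ M | ψ x ≠ 0}.Countable

section reduction

open Pool.Agent.K7.H85.PS

variable {𝕜 : Type w} [RCLike 𝕜] {X : Type u} [NormedAddCommGroup X]
    [NormedSpace 𝕜 X] {Γ : Type v} [PartialOrder Γ] (S : ProjectionalSkeleton 𝕜 X Γ)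
include S

lemma left_apply {s t : Γ} (h : s ≤ t) (x : X) : S.P s (S.P t x) = S.P s x :=
  (congrArg (fun T => T x) (S.compat s t h).1).symm

lemma right_apply {s t : Γ} (h : s ≤ t) (x : X) : S.P t (S.P s x) = S.P s x :=
  (congrArg (fun T => T x) (S.compat s t h).2).symm

lemma range_eq (s : Γ) : range (S.P s) = {x | S.P s x = x} := by
  ext x
  constructor
  · rintro ⟨y, rfl⟩
    exact left_apply S le_rfl y
  · intro h
    exact ⟨x, h⟩

lemma isClosed_range (s : Γ) : IsClosed (range (S.P s)) := by
  rw [range_eq]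
  exact isClosed_eq (S.P s).continuous continuous_id

lemma range_mono {s t : Γ} (h : s ≤ t) : range (S.P s) ⊆ range (S.P t) := by
  rintro _ ⟨x, rfl⟩
  exact ⟨S.P s x, right_apply S h x⟩

/-- The conditions on increasing sequences also hold for non-strictly increasing sequences. -/
lemma monotone_sup (s : ℕ → Γ) (hs : Monotone s) : ∃ t, IsLUB (range s) t ∧
    range (S.P t) = closure (⋃ n, range (S.P (s n))) := by
  by_cases h : ∃ N, ∀ n, N ≤ n → s n = s N
  · obtain ⟨N, hN⟩ := h
    have hle : ∀ n, s n ≤ s N := fun n => by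
      rcases le_total n N with h | h
      · exact hs h
      · exact (hN n h).le
    refine ⟨s N, ⟨?_, fun b hb => hb ⟨N, rfl⟩⟩, ?_⟩
    · rintro _ ⟨n, rfl⟩
      exact hle n
    · refine Subset.antisymm ((subset_iUnion (fun n => range (S.P (s n))) N).trans subset_closure)
        (closure_minimal (iUnion_subset fun n => range_mono S (hle n)) (isClosed_range S _))
  · push Not at h
    choose g hg hne using h
    have hlt : ∀ n, s n < s (g n) := fun n => lt_of_le_of_ne (hs (hg n)) (hne n).symm
    have hgn : ∀ n, n < g n := fun n => lt_of_le_of_ne (hg n) fun h => by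
      have := hne n
      rw [← h] at this
      exact this rfl
    let k : ℕ → ℕ := fun n => Nat.rec 0 (fun _ r => g r) n
    have hk : ∀ n, n ≤ k n := by
      intro n
      induction n with
      | zero => exact Nat.zero_le _
      | succ n ih => exact lt_of_le_of_lt ih (hgn (k n))
    have hsk : StrictMono (s ∘ k) := strictMono_nat_of_lt_succ fun n => hlt (k n)
    obtain ⟨t, ht⟩ := S.exists_sup _ hsk
    refine ⟨t, ⟨?_, ?_⟩, ?_⟩
    · rintro _ ⟨n, rfl⟩
      exact (hs (hk n)).trans (ht.1 ⟨n, rfl⟩)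
    · intro b hb
      apply ht.2
      rintro _ ⟨n, rfl⟩
      exact hb ⟨k n, rfl⟩
    · rw [S.cont _ t hsk ht]
      refine Subset.antisymm (closure_mono (iUnion_subset fun n => ?_))
        (closure_mono (iUnion_subset fun n => ?_))
      · exact subset_iUnion (fun n => range (S.P (s n))) (k n)
      · exact (range_mono S (hs (hk n))).trans
          (subset_iUnion (fun n => range (S.P ((s ∘ k) n))) n)

/-- The projections are uniformly bounded on a cofinal set. -/
lemma exists_bound : ∃ K : ℝ, 0 ≤ K ∧ ∀ s, ∃ t, s ≤ t ∧ ‖S.P t‖ ≤ K := by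
  by_contra hcon
  push Not at hcon
  have h1 : ∀ n : ℕ, ∃ s, ∀ t, s ≤ t → (n : ℝ) < ‖S.P t‖ := fun n =>
    hcon n (Nat.cast_nonneg n)
  choose a ha using h1
  choose d hd1 hd2 using S.directed
  let b : ℕ → Γ := fun n => Nat.rec (a 0) (fun k r => d r (a (k + 1))) n
  have hb : Monotone b := monotone_nat_of_le_succ fun n => hd1 _ _
  have hab : ∀ n, a n ≤ b n := by
    intro n
    cases n with
    | zero => exact le_rfl
    | succ n => exact hd2 _ _
  obtain ⟨t, ht, -⟩ := monotone_sup S b hb
  obtain ⟨n, hn⟩ := exists_nat_ge ‖S.P t‖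
  exact absurd hn (not_le.2 (ha n t ((hab n).trans (ht.1 ⟨n, rfl⟩))))

/-- The uniformly bounded part of a projectional skeleton. -/
theorem exists_sys : ∃ (Δ : Set Γ) (K : ℝ), Sys S.P Δ K := by
  obtain ⟨K, hK, hcof⟩ := exists_bound S
  refine ⟨{t | ‖S.P t‖ ≤ K}, K,
    { bdd := fun s hs => hs
      left := fun s t h => left_apply S h
      right := fun s t h => right_apply S h
      sep := S.separable
      cof := fun s => by
        obtain ⟨t, h1, h2⟩ := hcof s
        exact ⟨t, h2, h1⟩
      dir := S.directed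
      cover := fun x => by
        have h : x ∈ ⋃ s, range (S.P s) := by rw [S.cover]; trivial
        obtain ⟨s, hs⟩ := mem_iUnion.1 h
        rw [range_eq] at hs
        exact ⟨s, hs⟩
      sup := ?_ }⟩
  intro s hs hsΔ
  obtain ⟨t, ht, hrange⟩ := monotone_sup S s hs
  have hle : ∀ n, s n ≤ t := fun n => ht.1 ⟨n, rfl⟩
  have hlim : ∀ x, Tendsto (fun n => S.P (s n) x) atTop (𝓝 (S.P t x)) := by
    intro x
    rw [Metric.tendsto_atTop]
    intro ε hε
    have hy : S.P t x ∈ closure (⋃ n, range (S.P (s n))) := by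
      rw [← hrange]
      exact ⟨x, rfl⟩
    have hδ : 0 < ε / (K + 2) := by positivity
    obtain ⟨z, hz, hdist⟩ := Metric.mem_closure_iff.1 hy _ hδ
    obtain ⟨N, hN⟩ := mem_iUnion.1 hz
    refine ⟨N, fun n hn => ?_⟩
    have hfix : S.P (s n) z = z := by
      have := range_mono S (hs hn) hN
      rwa [range_eq] at this
    rw [dist_eq_norm] at hdist ⊢
    have h1 : ‖S.P (s n) (S.P t x - z)‖ ≤ K * ‖S.P t x - z‖ :=
      (S.P (s n)).le_of_opNorm_le (hsΔ n) _
    rw [map_sub, hfix, left_apply S (hle n)] at h1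
    calc ‖S.P (s n) x - S.P t x‖ = ‖(S.P (s n) x - z) - (S.P t x - z)‖ := by congr 1; abel
      _ ≤ ‖S.P (s n) x - z‖ + ‖S.P t x - z‖ := norm_sub_le _ _
      _ ≤ K * ‖S.P t x - z‖ + ‖S.P t x - z‖ := by gcongr
      _ = (K + 1) * ‖S.P t x - z‖ := by ring
      _ ≤ (K + 1) * (ε / (K + 2)) := by gcongr
      _ < ε := by
          rw [mul_div_assoc', div_lt_iff₀ (by positivity)]
          nlinarith
  refine ⟨t, ?_, hle, hlim⟩
  refine ContinuousLinearMap.opNorm_le_bound _ hK fun x => ?_
  exact le_of_tendsto (hlim x).norm (Eventually.of_forall fun n =>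
    (S.P (s n)).le_of_opNorm_le (hsΔ n) x)

end reduction

open Pool.Agent.K7.H85.PS in
/-- **Theorem.** Let `X` be a real or complex Banach space and let `D ⊆ X*` be the subspace induced
by a projectional skeleton on `X`. If `D` has finite codimension in `X*`, then `D` is a
`Σ`-subspace of `X*`. -/
theorem result (𝕜 : Type w) [RCLike 𝕜] (X : Type u) [NormedAddCommGroup X] [NormedSpace 𝕜 X]
    [CompleteSpace X] (Γ : Type v) [PartialOrder Γ] (S : ProjectionalSkeleton 𝕜 X Γ)
    (hfin : FiniteDimensional 𝕜 ((X →L[𝕜] 𝕜) ⧸ S.induced)) : IsSigmaSubspace S.induced := by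
  obtain ⟨Δ, K, T⟩ := exists_sys S
  have hD : S.induced = T.D := by
    ext ψ
    constructor
    · rintro ⟨s, φ, rfl⟩
      exact T.comp_mem φ s
    · rintro ⟨s, hs⟩
      exact ⟨s, ψ, by ext x; exact (hs x).symm⟩
  rw [hD] at hfin ⊢
  obtain ⟨M, -, hM, hψ⟩ := main_ind.{u} T hfin (Cardinal.mk X) (ContinuousLinearMap.id 𝕜 X)
    (fun x => rfl) (fun ψ hψ => hψ)
    ⟨univ, ⟨X, id, by simp, le_rfl⟩, by simp⟩
  refine ⟨M, ?_, fun ψ => ?_⟩
  · rw [eq_univ_iff_forall]
    exact fun x => hM ⟨x, rfl⟩
  · exact hψ ψ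

end Pool.Agent.Results.MP_927f17_an.FiniteCodimension
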